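import Pool.Agent.H398R3.RankOneB

/-!
# The rank-one numerical index of `ℓ_p` spaces is smaller than `κ_p`

For all `1 < p < ∞` with `p ≠ 2`, for real and for complex scalars, and for every index set `ι`
with at least two elements, the rank-one numerical index of `ℓ_p(ι)` is strictly smaller than
`κ_p = p^(-1/p) q^(-1/q)`. So the conjectured equality fails for every `p ≠ 2`.
-/

open scoped ENNReal ComplexConjugate

namespace Pool.Agent.Results.MP_d0ed5b_an.ConjectureFails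

/-- The numerical radius of a bounded operator `T`: the supremum of `|f (T x)|` over all `x`, `f`
of norm one with `f x = 1`. -/
noncomputable def numRadius {𝕜 X : Type*} [RCLike 𝕜] [NormedAddCommGroup X] [NormedSpace 𝕜 X]
    (T : X →L[𝕜] X) : ℝ :=
  sSup {r : ℝ | ∃ (x : X) (f : X →L[𝕜] 𝕜), ‖x‖ = 1 ∧ ‖f‖ = 1 ∧ f x = 1 ∧ r = ‖f (T x)‖}

/-- The rank-one numerical index: the infimum of the numerical radii of the operators of rank one
and norm one. -/
noncomputable def rankOneIndex (𝕜 X : Type*) [RCLike 𝕜] [NormedAddCommGroup X]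
    [NormedSpace 𝕜 X] : ℝ :=
  sInf {r : ℝ | ∃ T : X →L[𝕜] X, Module.finrank 𝕜 (LinearMap.range (T : X →ₗ[𝕜] X)) = 1 ∧
    ‖T‖ = 1 ∧ r = numRadius T}

/-- The constant `κ_p = 1 / (p^(1/p) q^(1/q))` with `q = p / (p - 1)`. -/
noncomputable def kappa (p : ℝ) : ℝ :=
  1 / (p ^ (1 / p) * (p / (p - 1)) ^ (1 / (p / (p - 1))))

open Pool.Agent.H398R3.RO in
/-- The main estimate. -/
lemma main_bound {𝕜 : Type*} [RCLike 𝕜] {ι : Type*} [DecidableEq ι] {p : ℝ≥0∞} [Fact (1 ≤ p)]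
    (hp1 : 1 < p.toReal) {q : ℝ} (hpq : p.toReal.HolderConjugate q) {C t₀ : ℝ}
    (hkey : ∀ t : ℝ, |t| ≤ t₀ → ∀ l m : ℝ, 0 ≤ l → 0 ≤ m → l + m ≤ 1 →
      l ^ (1 / p.toReal) * m ^ (1 / q) + t * (m - (p.toReal - 1) * l) ≤
        kap p.toReal q + C * t ^ 2) {i j : ι} (hij : i ≠ j) {η : ℝ} (hη : 0 < η)
    (hηt : η ≤ t₀) {x : lp (fun _ : ι => 𝕜) p} {f : lp (fun _ : ι => 𝕜) p →L[𝕜] 𝕜}
    (hx : ‖x‖ = 1) (hf : ‖f‖ = 1) (hfx : f x = 1) :
    ‖(x i + (η : 𝕜) * x j) * (f (sg p j 1) - ((p.toReal - 1) * η : ℝ) * f (sg p i 1))‖ ≤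
      kap p.toReal q + (C + (p.toReal - 1)) * η ^ 2 := by
  have hp0 : 0 < p.toReal := by linarith
  set P := p.toReal with hP
  set l : ℝ := ‖x i‖ ^ P with hl
  set m : ℝ := ‖x j‖ ^ P with hm
  have hl0 : 0 ≤ l := by positivity
  have hm0 : 0 ≤ m := by positivity
  have hlm : l + m ≤ 1 := by
    have h1 := lp.hasSum_norm hp0 x
    rw [hx, Real.one_rpow] at h1
    have h2 := sum_le_hasSum {i, j} (fun _ _ => by positivity) h1
    rw [Finset.sum_pair hij] at h2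
    exact h2
  set ξi := f (sg p i 1) with hξi
  set ξj := f (sg p j 1) with hξj
  have hii : x i * ξi = ((l : ℝ) : 𝕜) := coord_mul hp1 hx hf hfx i
  have hjj : x j * ξj = ((m : ℝ) : 𝕜) := coord_mul hp1 hx hf hfx j
  have hni : ‖ξi‖ = ‖x i‖ ^ (P - 1) := coord_norm hp1 hx hf hfx i
  have hnj : ‖ξj‖ = ‖x j‖ ^ (P - 1) := coord_norm hp1 hx hf hfx j
  have hexp : (x i + (η : 𝕜) * x j) * (ξj - ((P - 1) * η : ℝ) * ξi) =
      x i * ξj + ((η * (m - (P - 1) * l) : ℝ) : 𝕜) -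
        (((P - 1) * η ^ 2 : ℝ) : 𝕜) * (x j * ξi) := by
    have h3 : (x i + (η : 𝕜) * x j) * (ξj - ((P - 1) * η : ℝ) * ξi) =
        x i * ξj + (η : 𝕜) * (x j * ξj) - ((P - 1) * η : ℝ) * (x i * ξi) -
          ((P - 1) * η : ℝ) * (η : 𝕜) * (x j * ξi) := by ring
    rw [h3, hii, hjj]
    push_cast
    ring
  have hxi1 : ‖x i‖ ≤ 1 := hx ▸ lp.norm_apply_le_norm (by
    intro h; rw [h] at hP; simp at hP; linarith) x i
  have hxj1 : ‖x j‖ ≤ 1 := hx ▸ lp.norm_apply_le_norm (by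
    intro h; rw [h] at hP; simp at hP; linarith) x j
  have hn1 : ‖x i * ξj‖ = l ^ (1 / P) * m ^ (1 / q) := by
    rw [norm_mul, hnj, hl, hm, ← Real.rpow_mul (norm_nonneg _), ← Real.rpow_mul (norm_nonneg _),
      mul_one_div_cancel hp0.ne', Real.rpow_one]
    congr 2
    have := hpq.symm.sub_one_mul_conj
    have h4 := hpq.sub_one_mul_conj
    have hq := hpq.symm.pos
    field_simp
    linarith
  have hn2 : ‖x j * ξi‖ ≤ 1 := by
    rw [norm_mul, hni]
    exact mul_le_one₀ hxj1 (by positivity) (Real.rpow_le_one (norm_nonneg _) hxi1 (by linarith))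
  rw [hexp]
  have hP1 : 0 ≤ P - 1 := by linarith
  calc ‖x i * ξj + ((η * (m - (P - 1) * l) : ℝ) : 𝕜) - (((P - 1) * η ^ 2 : ℝ) : 𝕜) * (x j * ξi)‖
      ≤ ‖x i * ξj‖ + ‖((η * (m - (P - 1) * l) : ℝ) : 𝕜)‖ +
        ‖(((P - 1) * η ^ 2 : ℝ) : 𝕜) * (x j * ξi)‖ :=
        (norm_sub_le _ _).trans (add_le_add_left (norm_add_le _ _) _)
    _ = l ^ (1 / P) * m ^ (1 / q) + |η * (m - (P - 1) * l)| +
        (P - 1) * η ^ 2 * ‖x j * ξi‖ := by
        rw [hn1, RCLike.norm_ofReal, norm_mul, RCLike.norm_ofReal,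
          abs_of_nonneg (by positivity : 0 ≤ (P - 1) * η ^ 2)]
    _ ≤ (kap P q + C * η ^ 2) + (P - 1) * η ^ 2 * 1 := by
        have h5 : l ^ (1 / P) * m ^ (1 / q) + |η * (m - (P - 1) * l)| ≤ kap P q + C * η ^ 2 := by
          rcases abs_cases (η * (m - (P - 1) * l)) with ⟨h6, _⟩ | ⟨h6, _⟩
          · rw [h6]
            exact hkey η (by rwa [abs_of_pos hη]) l m hl0 hm0 hlm
          · rw [h6]
            have := hkey (-η) (by rwa [abs_neg, abs_of_pos hη]) l m hl0 hm0 hlm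
            rw [neg_sq] at this
            linarith
        gcongr
    _ = _ := by ring

open Pool.Agent.H398R3.RO in
/-- For every `1 < p < ∞`, `p ≠ 2`, every index set with at least two elements, and real or complex
scalars, the rank-one numerical index of `ℓ_p(ι)` is smaller than `κ_p`. -/
theorem result (𝕜 : Type*) [RCLike 𝕜] (ι : Type*) [Nontrivial ι] (p : ℝ≥0∞) [Fact (1 ≤ p)]
    (h1 : 1 < p) (htop : p ≠ ∞) (h2 : p ≠ 2) :
    rankOneIndex 𝕜 (lp (fun _ : ι => 𝕜) p) < kappa p.toReal := by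
  classical
  obtain ⟨i, j, hij⟩ := exists_pair_ne ι
  have hp1 : 1 < p.toReal := by
    have := (ENNReal.toReal_lt_toReal (by simp) htop).2 h1
    simpa using this
  have hp0 : 0 < p.toReal := by linarith
  have hp2 : p.toReal ≠ 2 := by
    intro h
    apply h2
    rw [← ENNReal.ofReal_toReal htop, h]
    norm_num
  set P := p.toReal with hP
  set q : ℝ := P / (P - 1) with hq
  have hpq : P.HolderConjugate q := Real.HolderConjugate.conjExponent hp1
  have hq0 := hpq.symm.pos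
  have hkap : kappa P = kap P q := by
    unfold kappa kap
    rw [← hq, one_div]
  rw [hkap]
  obtain ⟨C, t₀, hC, ht₀, hkey⟩ := key hpq
  obtain ⟨η, hη, hηt, hlt⟩ := exists_eta hpq hp2 (K := C + (P - 1)) ht₀
  -- the operator
  set G : lp (fun _ : ι => 𝕜) p →L[𝕜] 𝕜 :=
    lp.evalCLM 𝕜 (fun _ : ι => 𝕜) p i + (η : 𝕜) • lp.evalCLM 𝕜 (fun _ : ι => 𝕜) p j with hG
  have hGx : ∀ x, G x = x i + (η : 𝕜) * x j := fun x => rfl
  set u : lp (fun _ : ι => 𝕜) p := sg p j 1 - (((P - 1) * η : ℝ) : 𝕜) • sg p i 1 with hu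
  set T : lp (fun _ : ι => 𝕜) p →L[𝕜] lp (fun _ : ι => 𝕜) p := G.smulRight u with hT
  have hTx : ∀ x, T x = G x • u := fun x => rfl
  have hP1 : 0 < P - 1 := by linarith
  -- the norm of `u`
  have hsum2 : ∀ a b : 𝕜, ‖sg p j a + sg p i b‖ ^ P = ‖a‖ ^ P + ‖b‖ ^ P := by
    intro a b
    rw [norm_add_single hp0, sg, lp.norm_single (by
      exact lt_trans zero_lt_one h1)]
    have : (lp.single (E := fun _ : ι => 𝕜) p j a) i = 0 := by
      simp [Pi.single_eq_of_ne hij]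
    rw [this, norm_zero, Real.zero_rpow hp0.ne', zero_add]
    ring
  have hunorm : ‖u‖ = (1 + ((P - 1) * η) ^ P) ^ (1 / P) := by
    have h3 : u = sg p j 1 + sg p i (-(((P - 1) * η : ℝ) : 𝕜)) := by
      rw [hu, sub_eq_add_neg, ← neg_smul, sg, sg, sg, ← lp.single_smul, smul_eq_mul, mul_one]
    have h4 := hsum2 1 (-(((P - 1) * η : ℝ) : 𝕜))
    rw [← h3, norm_one, Real.one_rpow, norm_neg, RCLike.norm_ofReal,
      abs_of_pos (mul_pos hP1 hη)] at h4
    rw [← h4, ← Real.rpow_mul (norm_nonneg _), mul_one_div_cancel hp0.ne', Real.rpow_one]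
  have hupos : 0 < ‖u‖ := by rw [hunorm]; positivity
  -- the norm of `T`
  have hTnorm : (1 + η ^ q) ^ (1 / q) * (1 + ((P - 1) * η) ^ P) ^ (1 / P) ≤ ‖T‖ := by
    set y : lp (fun _ : ι => 𝕜) p := sg p j ((η ^ (q - 1) : ℝ) : 𝕜) + sg p i 1 with hy
    have hηq : 0 < η ^ (q - 1) := Real.rpow_pos_of_pos hη _
    have hqp : (q - 1) * P = q := hpq.symm.sub_one_mul_conj
    have h3 : ‖y‖ ^ P = 1 + η ^ q := by
      rw [hy, hsum2, RCLike.norm_ofReal, abs_of_pos hηq, norm_one, Real.one_rpow,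
        ← Real.rpow_mul hη.le, hqp, add_comm]
    have h4 : ‖y‖ = (1 + η ^ q) ^ (1 / P) := by
      rw [← h3, ← Real.rpow_mul (norm_nonneg _), mul_one_div_cancel hp0.ne', Real.rpow_one]
    have hpos : 0 < 1 + η ^ q := by positivity
    have hyi : y i = 1 := by
      rw [hy]
      simp [sg, Pi.single_eq_of_ne hij]
    have hyj : y j = ((η ^ (q - 1) : ℝ) : 𝕜) := by
      rw [hy]
      simp [sg, Pi.single_eq_of_ne hij.symm]
    have h5 : G y = ((1 + η ^ q : ℝ) : 𝕜) := by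
      rw [hGx, hyi, hyj, ← RCLike.ofReal_mul]
      have : η * η ^ (q - 1) = η ^ q := by
        have h6 := Real.rpow_add hη 1 (q - 1)
        rw [Real.rpow_one] at h6
        rw [← h6]
        congr 1
        ring
      rw [this]
      push_cast
      ring
    have h6 : ‖T y‖ = (1 + η ^ q) * ‖u‖ := by
      rw [hTx, norm_smul, h5, RCLike.norm_ofReal, abs_of_pos hpos]
    have h7 := T.le_opNorm y
    rw [h6, h4] at h7
    have h8 : (1 + η ^ q) = (1 + η ^ q) ^ (1 / q) * (1 + η ^ q) ^ (1 / P) := by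
      rw [← Real.rpow_add hpos]
      have : 1 / q + 1 / P = 1 := by
        have := hpq.symm.inv_add_inv_eq_one
        simpa [one_div] using this
      rw [this, Real.rpow_one]
    have h9 : 0 < (1 + η ^ q) ^ (1 / P) := by positivity
    rw [← hunorm]
    refine le_of_mul_le_mul_right ?_ h9
    calc (1 + η ^ q) ^ (1 / q) * ‖u‖ * (1 + η ^ q) ^ (1 / P) =
        ((1 + η ^ q) ^ (1 / q) * (1 + η ^ q) ^ (1 / P)) * ‖u‖ := by ring
      _ = (1 + η ^ q) * ‖u‖ := by rw [← h8]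
      _ ≤ _ := h7
  have hTpos : 0 < ‖T‖ := lt_of_lt_of_le (by positivity) hTnorm
  have hκ := kap_pos hp0 hq0
  have hstrict : kap P q + (C + (P - 1)) * η ^ 2 < kap P q * ‖T‖ :=
    lt_of_lt_of_le hlt (by gcongr)
  -- normalize
  set c : 𝕜 := ((‖T‖⁻¹ : ℝ) : 𝕜) with hc
  have hcn : ‖c‖ = ‖T‖⁻¹ := by
    rw [hc, RCLike.norm_ofReal, abs_of_pos (inv_pos.2 hTpos)]
  have hc0 : c ≠ 0 := by
    rw [← norm_pos_iff, hcn]
    exact inv_pos.2 hTpos
  have hrad : numRadius (c • T) ≤ ‖T‖⁻¹ * (kap P q + (C + (P - 1)) * η ^ 2) := by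
    apply Real.sSup_le
    · rintro _ ⟨x, f, hx, hf, hfx, rfl⟩
      rw [_root_.smul_apply, map_smul, norm_smul, hcn]
      refine mul_le_mul_of_nonneg_left ?_ (inv_pos.2 hTpos).le
      rw [hTx, map_smul, smul_eq_mul, hGx, hu, map_sub, map_smul, smul_eq_mul]
      exact main_bound hp1 hpq hkey hij hη hηt hx hf hfx
    · have : 0 ≤ P - 1 := hP1.le
      positivity
  have hmem : numRadius (c • T) ∈ {r : ℝ | ∃ T : lp (fun _ : ι => 𝕜) p →L[𝕜] lp (fun _ : ι => 𝕜) p,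
      Module.finrank 𝕜 (LinearMap.range (T : lp (fun _ : ι => 𝕜) p →ₗ[𝕜] lp (fun _ : ι => 𝕜) p)) = 1 ∧
      ‖T‖ = 1 ∧ r = numRadius T} := by
    refine ⟨c • T, ?_, ?_, rfl⟩
    · have hrange : LinearMap.range ((c • T : lp (fun _ : ι => 𝕜) p →L[𝕜] lp (fun _ : ι => 𝕜) p) :
          lp (fun _ : ι => 𝕜) p →ₗ[𝕜] lp (fun _ : ι => 𝕜) p) = Submodule.span 𝕜 {u} := by
        ext z
        rw [LinearMap.mem_range, Submodule.mem_span_singleton]
        constructor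
        · rintro ⟨x, rfl⟩
          exact ⟨c * G x, by simp [hTx, mul_smul]⟩
        · rintro ⟨a, rfl⟩
          refine ⟨(a * c⁻¹) • sg p i 1, ?_⟩
          have hG1 : G (sg p i 1) = 1 := by
            rw [hGx]
            simp [sg, Pi.single_eq_of_ne hij.symm]
          show (c • T) ((a * c⁻¹) • sg p i 1) = a • u
          rw [_root_.smul_apply, hTx, map_smul, hG1, smul_eq_mul, mul_one, smul_smul,
            mul_left_comm, mul_inv_cancel₀ hc0, mul_one]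
      rw [hrange]
      exact finrank_span_singleton (norm_pos_iff.1 hupos)
    · rw [norm_smul, hcn, inv_mul_cancel₀ hTpos.ne']
  have hbdd : BddBelow {r : ℝ | ∃ T : lp (fun _ : ι => 𝕜) p →L[𝕜] lp (fun _ : ι => 𝕜) p,
      Module.finrank 𝕜 (LinearMap.range (T : lp (fun _ : ι => 𝕜) p →ₗ[𝕜] lp (fun _ : ι => 𝕜) p)) = 1 ∧
      ‖T‖ = 1 ∧ r = numRadius T} := by
    refine ⟨0, ?_⟩
    rintro _ ⟨S, _, _, rfl⟩
    apply Real.sSup_nonneg
    rintro _ ⟨x, f, _, _, _, rfl⟩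
    exact norm_nonneg _
  calc rankOneIndex 𝕜 (lp (fun _ : ι => 𝕜) p) ≤ numRadius (c • T) := csInf_le hbdd hmem
    _ ≤ ‖T‖⁻¹ * (kap P q + (C + (P - 1)) * η ^ 2) := hrad
    _ < ‖T‖⁻¹ * (kap P q * ‖T‖) := by gcongr
    _ = kap P q := by field_simp

end Pool.Agent.Results.MP_d0ed5b_an.ConjectureFails
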